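import Pool.Agent.T2h48.AD.Main
import Pool.Agent.T2h48.AD.T_ABEL
import Pool.Agent.T2h48.AD.T_EVEN
import Pool.Agent.T2h48.AD.T_LIM
import Pool.Agent.T2h48.AD.T_NUM1
import Pool.Agent.T2h48.AD.T_NUM2
import Pool.Agent.T2h48.AD.T_NUM3
import Pool.Agent.T2h48.AD.T_PLANE
import Pool.Agent.T2h48.AD.T_RED
import Pool.Agent.T2h48.AD.T_SUMQ
import Pool.Agent.T2h48.LP.All

set_option autoImplicit false

namespace Pool.Agent.Results.MP_79499b_co.AlgebraicDifferenceSets

/-- Quantifier-free formulas in the language of rings with `n` free variables and coefficients in `F`: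
`eq f` is the equation `f = 0`, `neg` is the negation, `and` is the conjunction. -/
inductive QF (F : Type) [CommRing F] (n : ℕ) : Type
  | eq : MvPolynomial (Fin n) F → QF F n
  | neg : QF F n → QF F n
  | and : QF F n → QF F n → QF F n

/-- truth of a formula at a point `x ∈ K ^ n` -/
def QF.Holds {F : Type} [CommRing F] {n : ℕ} {K : Type} [CommRing K] [Algebra F K] :
    QF F n → (Fin n → K) → Prop
  | QF.eq f, x => MvPolynomial.aeval x f = 0
  | QF.neg φ, x => ¬ φ.Holds x
  | QF.and φ ψ, x => φ.Holds x ∧ ψ.Holds x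

/-- the set `G(K)` of the points of `K ^ a` at which `G` is true -/
abbrev Points {F : Type} [Field F] {a : ℕ} (G : QF F a) (K : Type) [Field K] [Algebra F K] : Type :=
  {x : Fin a → K // G.Holds x}

/-- `D(K)` is a difference set with the Singer parameters of `(n, m)` in a group with the underlying set
`G(K)`, abelian if `m ≠ 3`, the multiplication of which has the graph `M(K)`. -/
def IsSinger {F : Type} [Field F] {a : ℕ} (G : QF F a) (M : QF F (a + a + a)) (D : QF F a)
    (K : Type) [Field K] [Algebra F K] (n m : ℕ) : Prop :=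
  ∃ _ : Group (Points G K),
    (∀ x y z : Points G K, M.Holds (Fin.append (Fin.append x.1 y.1) z.1) ↔ x * y = z) ∧
    (m = 3 ∨ ∀ x y : Points G K, x * y = y * x) ∧
    Nat.card (Points G K) * (n - 1) = n ^ m - 1 ∧
    Nat.card {x : Points G K // D.Holds x.1} * (n - 1) = n ^ (m - 1) - 1 ∧
    ∀ g : Points G K, g ≠ 1 →
      Nat.card {p : Points G K × Points G K // D.Holds p.1.1 ∧ D.Holds p.2.1 ∧ p.1 * p.2⁻¹ = g} *
        (n - 1) = n ^ (m - 2) - 1

/-- translation of the formulas -/
def tr {F : Type} [Field F] {n : ℕ} : QF F n → Pool.Agent.T2h48.DW.QF F n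
  | QF.eq f => .eq f
  | QF.neg φ => .neg (tr φ)
  | QF.and φ ψ => .and (tr φ) (tr ψ)

theorem tr_holds {F : Type} [Field F] {n : ℕ} (φ : QF F n) (K : Type) [Field K] [Algebra F K]
    (x : Fin n → K) : (tr φ).Holds x = φ.Holds x := by
  induction φ with
  | eq f => rfl
  | neg φ ih => exact congrArg Not ih
  | and φ ψ ih1 ih2 => exact congrArg₂ And ih1 ih2

theorem tr_points {F : Type} [Field F] {a : ℕ} (G : QF F a) (K : Type) [Field K] [Algebra F K] :
    Pool.Agent.T2h48.AD.Pt (tr G) K = Points G K := by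
  unfold Pool.Agent.T2h48.AD.Pt Points
  congr 1
  funext x
  exact tr_holds G K x

/-- the hypotheses for the translated formulas -/
theorem tr_singer {F : Type} [Field F] {a : ℕ} (G : QF F a) (M : QF F (a + a + a)) (D : QF F a)
    (K : Type) [Field K] [Algebra F K] (n m : ℕ) :
    Pool.Agent.T2h48.AD.IsSinger (tr G) (tr M) (tr D) K n m ↔ IsSinger G M D K n m := by
  have hG : (tr G).Holds (K := K) = G.Holds := funext fun x => tr_holds G K x
  have hM : (tr M).Holds (K := K) = M.Holds := funext fun x => tr_holds M K x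
  have hD : (tr D).Holds (K := K) = D.Holds := funext fun x => tr_holds D K x
  unfold Pool.Agent.T2h48.AD.IsSinger IsSinger Pool.Agent.T2h48.AD.Pt Points
  rw [hG, hM, hD]

/-- **Algebraic difference sets with Singer parameters.** Let `F` be a finite field, let `G`, `M`, `D` be
formulas over `F`, and let `m ≥ 3`. Suppose that for all `s` and all extensions `K` of `F` of degree `2 ^ s`
the set `D(K)` is a difference set with the Singer parameters of `(n, m)`, for some `n ≥ 2` (which may depend on
`K`), in the group `G(K)`, which is abelian unless `m = 3`, and that the orders of these groups are unbounded.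
Then `m` is odd, and for all these `K` the order `n` of `D(K)` is a power of the order of `K`. -/
theorem result {F : Type} [Field F] [Finite F] {a : ℕ} (G : QF F a) (M : QF F (a + a + a)) (D : QF F a)
    (m : ℕ) (hm : 3 ≤ m)
    (h : ∀ (s : ℕ) (K : Type) [Field K] [Finite K] [Algebra F K], Module.finrank F K = 2 ^ s →
      ∃ n, 2 ≤ n ∧ IsSinger G M D K n m)
    (hinf : ∀ B : ℕ, ∃ (s : ℕ) (K : Type) (_ : Field K) (_ : Finite K) (_ : Algebra F K),
      Module.finrank F K = 2 ^ s ∧ B < Nat.card (Points G K)) :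
    Odd m ∧ ∀ (s : ℕ) (K : Type) [Field K] [Finite K] [Algebra F K], Module.finrank F K = 2 ^ s →
      ∀ n, 2 ≤ n → IsSinger G M D K n m → ∃ w, n = Nat.card K ^ w := by
  have key := Pool.Agent.T2h48.AD.main
    (Pool.Agent.T2h48.AD.t_ABEL Pool.Agent.T2h48.AD.t_RED Pool.Agent.T2h48.AD.t_SUMQ
      Pool.Agent.T2h48.AD.t_NUM1 Pool.Agent.T2h48.AD.t_NUM2 Pool.Agent.T2h48.AD.t_NUM3)
    Pool.Agent.T2h48.AD.t_PLANE Pool.Agent.T2h48.AD.t_EVEN Pool.Agent.T2h48.AD.t_LIM
    Pool.Agent.T2h48.LP.form_all (tr G) (tr M) (tr D) m hm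
    (fun s K _ _ _ hK => by
      obtain ⟨n, hn, h1⟩ := h s K hK
      exact ⟨n, hn, (tr_singer G M D K n m).2 h1⟩)
    (fun B => by
      obtain ⟨s, K, i1, i2, i3, hK, hB⟩ := hinf B
      exact ⟨s, K, i1, i2, i3, hK, by rw [tr_points]; exact hB⟩)
  exact ⟨key.1, fun s K _ _ _ hK n hn h1 => key.2 s K hK n hn ((tr_singer G M D K n m).2 h1)⟩

end Pool.Agent.Results.MP_79499b_co.AlgebraicDifferenceSets
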