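import Pool.Agent.T3h90.PP.All

set_option autoImplicit false

namespace Pool.Agent.Results.MP_79499b_co.AlgebraicFamiliesPrimePower

/-- Quantifier-free formulas in the language of rings with `n` free variables and coefficients in `F`:
`eq f` is the equation `f = 0`, `neg` is the negation, `and` is the conjunction. -/
inductive QF (F : Type) [CommRing F] (n : ℕ) : Type
  | eq : MvPolynomial (Fin n) F → QF F n
  | neg : QF F n → QF F n
  | and : QF F n → QF F n → QF F n

/-- truth of a formula at a point `x ∈ K ^ n` -/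
def QF.Holds {F : Type} [CommRing F] {n : ℕ} {K : Type} [CommRing K] [Algebra F K] :
    QF F n → (Fin n → K) → Prop
  | QF.eq f, x => MvPolynomial.aeval x f = 0
  | QF.neg φ, x => ¬ φ.Holds x
  | QF.and φ ψ, x => φ.Holds x ∧ ψ.Holds x

/-- the set `G(K)` of the points of `K ^ a` at which `G` is true -/
abbrev Points {F : Type} [Field F] {a : ℕ} (G : QF F a) (K : Type) [Field K] [Algebra F K] : Type :=
  {x : Fin a → K // G.Holds x}

/-- `M` is true at `(x, y, z)` -/
def Mul {F : Type} [Field F] {a : ℕ} {G : QF F a} (M : QF F (a + a + a)) {K : Type} [Field K]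
    [Algebra F K] (x y z : Points G K) : Prop :=
  M.Holds (Fin.append (Fin.append x.1 y.1) z.1)

/-- For every finite extension `K` of `F`, the relation `M(K)` is the graph of a group law on `G(K)`. -/
def IsGroupFamily {F : Type} [Field F] {a : ℕ} (G : QF F a) (M : QF F (a + a + a)) : Prop :=
  ∀ (K : Type) [Field K] [Finite K] [Algebra F K], ∃ _ : Group (Points G K),
    ∀ x y z : Points G K, Mul M x y z ↔ x * y = z

/-- `D(K)` is a difference set with the Singer parameters of `(n, m)` in the group `G(K)`, with the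
multiplication given by `M(K)` (no commutativity assumed). -/
def IsSinger {F : Type} [Field F] {a : ℕ} (G : QF F a) (M : QF F (a + a + a)) (D : QF F a)
    (K : Type) [Field K] [Algebra F K] (n m : ℕ) : Prop :=
  ∃ _ : Group (Points G K),
    (∀ x y z : Points G K, Mul M x y z ↔ x * y = z) ∧
    Nat.card (Points G K) * (n - 1) = n ^ m - 1 ∧
    Nat.card {x : Points G K // D.Holds x.1} * (n - 1) = n ^ (m - 1) - 1 ∧
    ∀ g : Points G K, g ≠ 1 →
      Nat.card {p : Points G K × Points G K // D.Holds p.1.1 ∧ D.Holds p.2.1 ∧ p.1 * p.2⁻¹ = g} *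
        (n - 1) = n ^ (m - 2) - 1

/-- translation of the formulas -/
def tr {F : Type} [Field F] {n : ℕ} : QF F n → Pool.Agent.T2h48.DW.QF F n
  | QF.eq f => .eq f
  | QF.neg φ => .neg (tr φ)
  | QF.and φ ψ => .and (tr φ) (tr ψ)

theorem tr_holds {F : Type} [Field F] {n : ℕ} (φ : QF F n) (K : Type) [Field K] [Algebra F K]
    (x : Fin n → K) : (tr φ).Holds x = φ.Holds x := by
  induction φ with
  | eq f => rfl
  | neg φ ih => exact congrArg Not ih
  | and φ ψ ih1 ih2 => exact congrArg₂ And ih1 ih2

theorem tr_singer {F : Type} [Field F] {a : ℕ} (G : QF F a) (M : QF F (a + a + a)) (D : QF F a)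
    (K : Type) [Field K] [Algebra F K] (n m : ℕ) :
    Pool.Agent.T3h90.PP.IsSDS (tr G) (tr M) (tr D) K n m ↔ IsSinger G M D K n m := by
  have hG : (tr G).Holds (K := K) = G.Holds := funext fun x => tr_holds G K x
  have hM : (tr M).Holds (K := K) = M.Holds := funext fun x => tr_holds M K x
  have hD : (tr D).Holds (K := K) = D.Holds := funext fun x => tr_holds D K x
  unfold Pool.Agent.T3h90.PP.IsSDS IsSinger Pool.Agent.T2h48.AD.Pt Points Mul
  rw [hG, hM, hD]

theorem tr_grp {F : Type} [Field F] {a : ℕ} (G : QF F a) (M : QF F (a + a + a))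
    (h : IsGroupFamily G M) : Pool.Agent.T3h90.PP.Grp (tr G) (tr M) := by
  intro K _ _ _
  have hG : (tr G).Holds (K := K) = G.Holds := funext fun x => tr_holds G K x
  have hM : (tr M).Holds (K := K) = M.Holds := funext fun x => tr_holds M K x
  have h1 := h K
  unfold Points Mul at h1
  unfold Pool.Agent.T2h48.AD.Pt
  rw [hG, hM]
  exact h1

theorem tr_nonabelian {F : Type} [Field F] {a : ℕ} (G : QF F a) (M : QF F (a + a + a))
    (K : Type) [Field K] [Algebra F K]
    (h : ∃ x y z : Pool.Agent.T2h48.AD.Pt (tr G) K,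
      (tr M).Holds (Fin.append (Fin.append x.1 y.1) z.1) ∧
        ¬ (tr M).Holds (Fin.append (Fin.append y.1 x.1) z.1)) :
    ∃ x y z : Points G K, Mul M x y z ∧ ¬ Mul M y x z := by
  have hG : (tr G).Holds (K := K) = G.Holds := funext fun x => tr_holds G K x
  have hM : (tr M).Holds (K := K) = M.Holds := funext fun x => tr_holds M K x
  unfold Pool.Agent.T2h48.AD.Pt at h
  rw [hG, hM] at h
  exact h

theorem isPrimePow_of {K : Type} [Field K] [Finite K] {n r d : ℕ}
    (hn : 2 ≤ n) (hr : 1 ≤ r) (h : n ^ r = Nat.card K ^ d) : IsPrimePow n := by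
  classical
  have := Fintype.ofFinite K
  obtain ⟨p, hp⟩ := CharP.exists K
  obtain ⟨i, hpp, hc⟩ := FiniteField.card K p
  have h1 : n ∣ p ^ ((i : ℕ) * d) := by
    rw [pow_mul, ← hc, ← Nat.card_eq_fintype_card, ← h]
    exact dvd_pow_self _ (by omega)
  obtain ⟨j, -, hj⟩ := (Nat.dvd_prime_pow hpp).1 h1
  have hj0 : j ≠ 0 := by
    rintro rfl
    rw [pow_zero] at hj
    omega
  rw [hj]
  exact hpp.isPrimePow.pow hj0

/-- **The prime power conjecture for the large members of algebraic families of difference sets.** Let `F` be a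
finite field and let `G`, `M`, `D` be formulas over `F` such that `M(K)` is the graph of a group law on `G(K)`
for every finite extension `K` of `F`. There is `B` such that for every finite extension `K` of `F`, all `n ≥ B`
and all `m ≥ 3`: if `D(K)` is a difference set with the Singer parameters of `(n, m)` in the group `G(K)`,
then `n` is a prime power, and `n ^ (m - 1)` is a power of the order of `K`; or `m = 3`, `G(K)` is not
commutative, and `(n + 1) ^ 2` is a power of the order of `K`. -/
theorem result {F : Type} [Field F] [Finite F] {a : ℕ} (G D : QF F a) (M : QF F (a + a + a))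
    (hG : IsGroupFamily G M) :
    ∃ B : ℕ, ∀ (K : Type) [Field K] [Finite K] [Algebra F K] (n m : ℕ), B ≤ n → 3 ≤ m →
      IsSinger G M D K n m →
      (IsPrimePow n ∧ ∃ d : ℕ, n ^ (m - 1) = Nat.card K ^ d) ∨
      (m = 3 ∧ (∃ d : ℕ, (n + 1) ^ 2 = Nat.card K ^ d) ∧
        ∃ x y z : Points G K, Mul M x y z ∧ ¬ Mul M y x z) := by
  obtain ⟨B, hB⟩ := Pool.Agent.T3h90.PP.main_all F a (tr G) (tr D) (tr M) (tr_grp G M hG)
  refine ⟨B + 2, fun K _ _ _ n m hn hm h => ?_⟩
  rcases hB K n m (by omega) hm ((tr_singer G M D K n m).2 h) with ⟨d, hd⟩ | ⟨h1, h2, h3⟩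
  · exact Or.inl ⟨isPrimePow_of (by omega) (by omega) hd, d, hd⟩
  · exact Or.inr ⟨h1, h2, tr_nonabelian G M K h3⟩

end Pool.Agent.Results.MP_79499b_co.AlgebraicFamiliesPrimePower
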